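import Mathlib
import Pool.Agent.Work.MP_db9399_all.Interface

/-!
# MP_db9399, THEOREM EXP, block PARTX: random partitions of expanders (owner helper35)

Definitions and the exact statement `Stmt_X` of every sub-block. See `BLUEPRINT.md`.
-/

set_option autoImplicit false

namespace Pool.Agent.Work.MP_db9399_px

open Finset Classical
open Pool.Agent.Work.MP_db9399_all (nb pr DepOnI PackI)

universe u

section defs
variable {V : Type u} [Fintype V]

/-- number of pairs (a, b), a in A, b in B, which are adjacent -/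
noncomputable def ee (G : SimpleGraph V) (A B : Finset V) : ℝ := ∑ a ∈ A, ((nb G a ∩ B).card : ℝ)

/-- the functional of the pair (A, B) inside D, with price τ -/
noncomputable def ff (G : SimpleGraph V) (τ : ℝ) (D A B : Finset V) : ℝ :=
  ee G A (D \ B) + τ * ((B.card : ℝ) - A.card)

/-- two-sided expansion -/
def BE (G : SimpleGraph V) (d : ℕ) (γ : ℝ) : Prop :=
  ∀ A B : Finset V, B.card ≤ A.card → 2 * A.card ≤ Fintype.card V →
    ee G A B ≤ (1 - γ) * d * A.card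

/-- near-regular of degree d -/
def NR (G : SimpleGraph V) (d : ℕ) (ε : ℝ) : Prop :=
  ∀ v, (nb G v).card ≤ d ∧ (1 - ε) * d ≤ ((nb G v).card : ℝ)

/-- vertices with more than θ neighbours in S -/
noncomputable def hit (G : SimpleGraph V) (θ : ℝ) (S : Finset V) : Finset V :=
  univ.filter (fun v => θ < ((nb G v ∩ S).card : ℝ))

/-- `w 0, w 1, .., w L` is a lazy walk -/
def LWalk (G : SimpleGraph V) (L : ℕ) (w : ℕ → V) : Prop :=
  ∀ i < L, w (i + 1) = w i ∨ G.Adj (w i) (w (i + 1))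

/-- the permutations of `Fin M`, numbered -/
noncomputable def per (M : ℕ) : Fin (M.factorial) ≃ Equiv.Perm (Fin M) :=
  (Fintype.equivFinOfCardEq (by rw [Fintype.card_perm, Fintype.card_fin])).symm

/-- `blk v` = representative of the block of `v`, `pos v` = position of `v` in its block -/
def Blocks (M : ℕ) (blk : V → V) (pos : V → Fin M) : Prop :=
  ∀ v w, blk v = blk w → pos v = pos w → v = w

/-- the atom of `v` for the random choice `f` -/
noncomputable def atm (M : ℕ) (blk : V → V) (pos : V → Fin M) (f : V → Fin (M.factorial))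
    (v : V) : Fin M := per M (f (blk v)) (pos v)

/-- the union of the atoms in `P` -/
noncomputable def cc (M : ℕ) (blk : V → V) (pos : V → Fin M) (f : V → Fin (M.factorial))
    (P : Finset (Fin M)) : Finset V := univ.filter (fun v => atm M blk pos f v ∈ P)

end defs

/-! ## Deterministic blocks -/

/-- FN: the functional form of expansion. -/
def Stmt_FN : Prop :=
  ∀ {V : Type u} [Fintype V] (G : SimpleGraph V) (d : ℕ) (γ ε : ℝ), 0 < γ → γ ≤ 1 → 0 ≤ ε →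
    ε ≤ γ / 100 → 16 / γ ≤ Fintype.card V → NR G d ε → BE G d γ →
    ∀ A B : Finset V, 4 * B.card ≤ 3 * Fintype.card V →
      γ / 16 * d * A.card ≤ ff G ((d : ℝ) / 2) univ A B

/-- SAMP: a small random sample of A classifies a family of subsets of A. -/
def Stmt_SAMP : Prop :=
  ∀ {V W : Type u} [Fintype V] (A : Finset V) (D : Finset W) (S : W → Finset V) (q : ℕ) (θ : ℝ),
    0 < q → 1 ≤ θ → A.Nonempty → (∀ w ∈ D, S w ⊆ A) → 0 < ∑ w ∈ D, (S w).card →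
    ∃ R : Finset V, R ⊆ A ∧ (R.card : ℝ) * q ≤ 3 * A.card ∧
      (∑ w ∈ D.filter (fun w => ¬ (θ < ((S w ∩ R).card : ℝ) ↔ θ * q < ((S w).card : ℝ))),
        |((S w).card : ℝ) - θ * q| ≤ 18 / √θ * ∑ w ∈ D, ((S w).card : ℝ)) ∧
      (((D.filter (fun w => θ * q < ((S w).card : ℝ) ∧ S w ∩ R = ∅)).card : ℝ) ≤
        3 * Real.exp (-θ) / (θ * q) * ∑ w ∈ D, ((S w).card : ℝ))

/-- WALK: a lazy walk through a set which is connected in steps of length at most 4. -/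
def Stmt_WALK : Prop :=
  ∀ {V : Type u} [Fintype V] (G : SimpleGraph V) (U : Finset V) (x : V), x ∈ U →
    (∀ U1 ⊆ U, x ∈ U1 → U1 ≠ U → ∃ u ∈ U1, ∃ v ∈ U, v ∉ U1 ∧
      ∃ w : ℕ → V, LWalk G 4 w ∧ w 0 = u ∧ w 4 = v) →
    ∃ w : ℕ → V, LWalk G (8 * U.card) w ∧ w 0 = x ∧ ∀ v ∈ U, ∃ i ≤ 8 * U.card, w i = v

/-- TR: from a violating pair to a violating code. `C`, `D` have density `p`. -/
def Stmt_TR : Prop :=
  ∀ p κ : ℝ, 0 < p → p ≤ 1 → 0 < κ → κ ≤ 1 / 100 → ∃ (Θ0 δ0 : ℝ), 1 ≤ Θ0 ∧ 0 < δ0 ∧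
    ∀ {V : Type u} [Fintype V] (G : SimpleGraph V) (d q a0 : ℕ) (g δ Θ : ℝ) (C D : Finset V),
      0 ≤ g → g ≤ 1 / 32 → 0 ≤ δ → δ ≤ δ0 → Θ0 ≤ Θ → 1 ≤ d → 1 ≤ q →
      2 * Θ * q ≤ p * d → p * d ≤ 4 * Θ * q → 4 * d ≤ Real.exp Θ → (∀ v, (nb G v).card ≤ d) →
      (∀ v, |((nb G v ∩ C).card : ℝ) - p * d| ≤ δ * (p * d)) →
      (∀ v, |((nb G v ∩ D).card : ℝ) - p * d| ≤ δ * (p * d)) →
      ∀ A B : Finset V, A ⊆ C → B ⊆ D → A.card ≤ a0 →
        ff G (p * d / 2) D A B < g * (p * d) * A.card →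
        ∃ (A0 R S : Finset V) (L : ℕ) (w : ℕ → V), A0 ⊆ C ∧ A0.Nonempty ∧ A0.card ≤ a0 ∧
          (LWalk G L w ∧ ∀ v ∈ R ∪ S, ∃ i ≤ L, w i = v) ∧ 1 ≤ L ∧
          (L : ℝ) * (p * d) ≤ 400 * Θ * A0.card ∧
          (A0.card : ℝ) ≤ 3 * ((hit G ((1 / 2 - g) * (p * d) / q) S ∩ C).card : ℝ) ∧
          (((hit G (p * d / (2 * q)) R ∩ D).card : ℝ) ≤ (1 + 2 * g + 2 * κ) * A0.card) ∧
          ff G (p * d / 2) D (hit G ((1 / 2 - g) * (p * d) / q) S ∩ C)
              (hit G (p * d / (2 * q)) R ∩ D) ≤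
            g * (p * d) * ((hit G ((1 / 2 - g) * (p * d) / q) S ∩ C).card : ℝ) +
              κ * (p * d) * A0.card

/-! ## Probability blocks -/

/-- average over a finite type -/
noncomputable def avg {Ω : Type u} [Fintype Ω] (F : Ω → ℝ) : ℝ := (∑ ω, F ω) / (Fintype.card Ω : ℝ)

/-- PBM: McDiarmid's inequality for `pr` (from `Stmt_MCD` of MP_8d2cba_co_h18, which is proved in
MP_8d2cba_co_helper57/MCD.lean for `Type`). -/
def Stmt_PBM : Prop :=
  ∀ {J : Type u} [Fintype J] (m : ℕ) (F : (J → Fin m) → ℝ) (c : J → ℝ) (s t : ℝ), 0 < m →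
    (∀ y (f f' : J → Fin m), (∀ z, z ≠ y → f z = f' z) → |F f - F f'| ≤ c y) →
    ∑ y, c y ^ 2 ≤ s → 0 < s → 0 ≤ t →
    pr (fun f => t ≤ |F f - avg F|) ≤ 2 * Real.exp (-t ^ 2 / (2 * s))

/-- UNI: the law of one atom and of two atoms. -/
def Stmt_UNI : Prop :=
  ∀ {V : Type u} [Fintype V] (M : ℕ) (blk : V → V) (pos : V → Fin M) (P Q : Finset (Fin M)),
    0 < M → Blocks M blk pos →
    (∀ v, pr (fun f => atm M blk pos f v ∈ P) = (P.card : ℝ) / M) ∧
    (∀ v w, blk v ≠ blk w → pr (fun f => atm M blk pos f v ∈ P ∧ atm M blk pos f w ∈ Q) =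
      (P.card : ℝ) / M * ((Q.card : ℝ) / M))

/-- LIN: concentration of the size of `A ∩ cc P`. -/
def Stmt_LIN : Prop :=
  ∀ {V : Type u} [Fintype V] (M : ℕ) (blk : V → V) (pos : V → Fin M) (P : Finset (Fin M))
    (A : Finset V) (t : ℝ), 0 < M → Blocks M blk pos → A.Nonempty → 0 ≤ t →
    pr (fun f => t ≤ |((A ∩ cc M blk pos f P).card : ℝ) - (P.card : ℝ) / M * A.card|) ≤
      2 * Real.exp (-t ^ 2 / (2 * (M * A.card)))

/-- the good event of a pair (A, B) of fixed sets -/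
def GoodF {V : Type u} [Fintype V] (G : SimpleGraph V) (d M : ℕ) (σ : ℝ) (blk : V → V)
    (pos : V → Fin M) (P Q : Finset (Fin M)) (A B : Finset V) (f : V → Fin (M.factorial)) : Prop :=
  |ff G ((P.card : ℝ) / M * d / 2) (cc M blk pos f Q) (A ∩ cc M blk pos f P)
      (B ∩ cc M blk pos f Q) - ((P.card : ℝ) / M) ^ 2 * ff G ((d : ℝ) / 2) univ A B| ≤
    σ * ((P.card : ℝ) / M) ^ 2 * d * ((A.card : ℝ) + B.card) ∧
  |((A ∩ cc M blk pos f P).card : ℝ) - (P.card : ℝ) / M * A.card| ≤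
    σ * ((P.card : ℝ) / M) * ((A.card : ℝ) + B.card) ∧
  |((B ∩ cc M blk pos f Q).card : ℝ) - (P.card : ℝ) / M * B.card| ≤
    σ * ((P.card : ℝ) / M) * ((A.card : ℝ) + B.card)

/-- EVF: the good event of a fixed pair is likely and local. -/
def Stmt_EVF : Prop :=
  ∀ (M : ℕ) (σ : ℝ), 0 < M → 0 < σ → σ ≤ 1 → ∃ d0 : ℕ, 1 ≤ d0 ∧
    ∀ {V : Type u} [Fintype V] (G : SimpleGraph V) (d : ℕ) (blk : V → V) (pos : V → Fin M)
      (P Q : Finset (Fin M)) (A B : Finset V), d0 ≤ d → (∀ v, (nb G v).card ≤ d) →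
      Blocks M blk pos → P.card = Q.card → P.Nonempty →
      pr (fun f => ¬ GoodF G d M σ blk pos P Q A B f) ≤
          6 * Real.exp (-(σ ^ 2 / (200 * (M : ℝ) ^ 5) * ((A.card : ℝ) + B.card))) ∧
        DepOnI ((A ∪ B ∪ A.biUnion (nb G)).image blk) (GoodF G d M σ blk pos P Q A B)

/-- EVS: neighbourhoods stay sparse in unions of atoms. -/
def Stmt_EVS : Prop :=
  ∀ (M : ℕ) (δ : ℝ), 0 < M → 0 < δ → δ ≤ 1 → ∃ d0 : ℕ, 1 ≤ d0 ∧
    ∀ {V : Type u} [Fintype V] (G : SimpleGraph V) (d : ℕ) (blk : V → V) (pos : V → Fin M)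
      (P : Finset (Fin M)) (v : V), d0 ≤ d → (∀ v, (nb G v).card ≤ d) → Blocks M blk pos →
      pr (fun f => δ * (d : ℝ) ^ 2 < ee G (nb G v ∩ cc M blk pos f P) (nb G v ∩ cc M blk pos f P) -
          ((P.card : ℝ) / M) ^ 2 * ee G (nb G v) (nb G v)) ≤
        2 * Real.exp (-(δ ^ 2 / (32 * M) * d))

/-- LLX: the local lemma. All fixed pairs coded by short walks are good at the same time, and all
degrees and neighbourhoods are as they should be. -/
def Stmt_LLX : Prop :=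
  ∀ (M : ℕ) (σ δ c1 : ℝ), 0 < M → 0 < σ → σ ≤ 1 → 0 < δ → δ ≤ 1 → 0 < c1 → ∃ d0 : ℕ, 1 ≤ d0 ∧
    ∀ {V : Type u} [Fintype V] (G : SimpleGraph V) (d : ℕ) (blk : V → V) (pos : V → Fin M),
      d0 ≤ d → (∀ v, (nb G v).card ≤ d) → Blocks M blk pos →
      ∃ f : V → Fin (M.factorial),
        (∀ v (P : Finset (Fin M)),
          |((nb G v ∩ cc M blk pos f P).card : ℝ) - (P.card : ℝ) / M * (nb G v).card| ≤ δ * d ∧
          ee G (nb G v ∩ cc M blk pos f P) (nb G v ∩ cc M blk pos f P) ≤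
            ((P.card : ℝ) / M) ^ 2 * ee G (nb G v) (nb G v) + δ * (d : ℝ) ^ 2) ∧
        ∀ (P Q : Finset (Fin M)) (L : ℕ) (w : ℕ → V) (R S : Finset V) (θ1 θ2 : ℝ),
          P.card = Q.card → P.Nonempty → LWalk G L w → 1 ≤ L → 0 ≤ θ1 → 0 ≤ θ2 →
          (∀ v ∈ R ∪ S, ∃ i ≤ L, w i = v) →
          c1 * (L * d) ≤ Real.log d * (((hit G θ2 S).card : ℝ) + (hit G θ1 R).card) →
          GoodF G d M σ blk pos P Q (hit G θ2 S) (hit G θ1 R) f

/-! ## The final statement -/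

/-- the atoms given by `π : V → Fin M` -/
noncomputable def at' {V : Type u} [Fintype V] {M : ℕ} (π : V → Fin M) (P : Finset (Fin M)) :
    Finset V := univ.filter (fun v => π v ∈ P)

/-- PX1: the functional inequality holds for the random partition of LLX (also for slightly too
large sets). -/
def Stmt_PX1 : Prop :=
  ∀ (γ δ : ℝ) (M : ℕ), 0 < γ → γ ≤ 1 → 0 < δ → 0 < M → ∃ (ε : ℝ) (d0 : ℕ), 0 < ε ∧ 1 ≤ d0 ∧
    ∀ {V : Type u} [Fintype V] (G : SimpleGraph V) (d : ℕ) (blk : V → V) (pos : V → Fin M),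
      d0 ≤ d → NR G d ε → BE G d γ → Blocks M blk pos →
      ∃ f : V → Fin (M.factorial),
        (∀ v (P : Finset (Fin M)),
          |((nb G v ∩ cc M blk pos f P).card : ℝ) - (P.card : ℝ) / M * d| ≤ δ * d ∧
          ee G (nb G v ∩ cc M blk pos f P) (nb G v ∩ cc M blk pos f P) ≤
            ((P.card : ℝ) / M) ^ 2 * ee G (nb G v) (nb G v) + δ * (d : ℝ) ^ 2) ∧
        ∀ P Q : Finset (Fin M), P.card = Q.card → P.Nonempty → ∀ A B : Finset V,
          A ⊆ cc M blk pos f P → B ⊆ cc M blk pos f Q →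
          2 * A.card ≤ (cc M blk pos f P).card + 2 * M + 2 →
          γ / 32 * ((P.card : ℝ) / M * d) * A.card ≤
            ff G ((P.card : ℝ) / M * d / 2) (cc M blk pos f Q) A B

/-- PARTX: partition of an expander into atoms; the atoms are filled in the order `e`. -/
def Stmt_PARTX : Prop :=
  ∀ (γ δ : ℝ) (M : ℕ), 0 < γ → γ ≤ 1 → 0 < δ → 0 < M → ∃ (ε : ℝ) (d0 : ℕ), 0 < ε ∧ 1 ≤ d0 ∧
    ∀ {V : Type u} [Fintype V] (G : SimpleGraph V) (d : ℕ) (e : Fin M ≃ Fin M), d0 ≤ d →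
    NR G d ε → BE G d γ →
    ∃ π : V → Fin M,
      (∀ i : Fin M, (at' π {e i}).card =
        Fintype.card V / M + if (i : ℕ) < Fintype.card V % M then 1 else 0) ∧
      (∀ a b, |(∑ v ∈ at' π {a}, ((nb G v).card : ℝ)) - (∑ v ∈ at' π {b}, ((nb G v).card : ℝ)) -
        (((at' π {a}).card : ℝ) - (at' π {b}).card) * d| ≤ δ * d) ∧
      (∀ v P, |((nb G v ∩ at' π P).card : ℝ) - (P.card : ℝ) / M * d| ≤ δ * d) ∧
      (∀ v P, ee G (nb G v ∩ at' π P) (nb G v ∩ at' π P) ≤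
        ((P.card : ℝ) / M) ^ 2 * ee G (nb G v) (nb G v) + δ * (d : ℝ) ^ 2) ∧
      ∀ P Q : Finset (Fin M), P.card = Q.card → P.Nonempty → ∀ A B : Finset V,
        A ⊆ at' π P → B ⊆ at' π Q → 2 * A.card ≤ (at' π P).card + 2 →
        γ / 64 * ((P.card : ℝ) / M * d) * A.card ≤ ff G ((P.card : ℝ) / M * d / 2) (at' π Q) A B

end Pool.Agent.Work.MP_db9399_px
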