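import Pool.Agent.Work.MP_db9399_px.Interface

/-!
# MP_db9399, THEOREM EXP, PARTX: the blocks of LLX (owner helper35)

LLX = CNT + BALL + LPKX + LPKV + LNUM + LLLI (`stmt_LLLI`, Work/MP_db9399_all_helper6/LLLI.lean).
-/

set_option autoImplicit false

namespace Pool.Agent.Work.MP_db9399_px

open Finset Classical
open Pool.Agent.Work.MP_db9399_all (nb pr DepOnI PackI)

universe u

section
variable {V : Type u} [Fintype V]

/-- the pairs of sets covered by a lazy walk of length `L` from `x` -/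
noncomputable def Codes (G : SimpleGraph V) (x : V) (L : ℕ) : Finset (Finset V × Finset V) :=
  univ.filter (fun c => ∃ w : ℕ → V, LWalk G L w ∧ w 0 = x ∧
    ∀ v ∈ c.1 ∪ c.2, ∃ i ≤ L, w i = v)

/-- the vertices at distance at most `k` from `x` -/
noncomputable def lball (G : SimpleGraph V) (k : ℕ) (x : V) : Finset V :=
  univ.filter (fun z => ∃ w : ℕ → V, LWalk G k w ∧ w 0 = x ∧ w k = z)

/-- what the package of the root `x` and the length `L` gives -/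
def PropX (G : SimpleGraph V) (d M : ℕ) (σ c1 : ℝ) (blk : V → V) (pos : V → Fin M) (x : V) (L : ℕ)
    (f : V → Fin (M.factorial)) : Prop :=
  ∀ (P Q : Finset (Fin M)) (w : ℕ → V) (R S : Finset V) (θ1 θ2 : ℝ),
    P.card = Q.card → P.Nonempty → LWalk G L w → w 0 = x → 0 ≤ θ1 → 0 ≤ θ2 →
    (∀ v ∈ R ∪ S, ∃ i ≤ L, w i = v) →
    c1 * (L * d) ≤ Real.log d * (((hit G θ2 S).card : ℝ) + (hit G θ1 R).card) →
    GoodF G d M σ blk pos P Q (hit G θ2 S) (hit G θ1 R) f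

/-- what the package of the vertex `v` gives -/
def PropV (G : SimpleGraph V) (d M : ℕ) (δ : ℝ) (blk : V → V) (pos : V → Fin M) (v : V)
    (f : V → Fin (M.factorial)) : Prop :=
  ∀ P : Finset (Fin M),
    |((nb G v ∩ cc M blk pos f P).card : ℝ) - (P.card : ℝ) / M * (nb G v).card| ≤ δ * d ∧
    ee G (nb G v ∩ cc M blk pos f P) (nb G v ∩ cc M blk pos f P) ≤
      ((P.card : ℝ) / M) ^ 2 * ee G (nb G v) (nb G v) + δ * (d : ℝ) ^ 2

end

/-- CNT: the number of codes. (Induction on `L`, or a surjection from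
`(Fin L → Fin (d + 1)) × (Fin (L + 1) → Bool × Bool)`.) -/
def Stmt_CNT : Prop :=
  ∀ {V : Type u} [Fintype V] (G : SimpleGraph V) (d L : ℕ) (x : V), (∀ v, (nb G v).card ≤ d) →
    (Codes G x L).card ≤ (4 * (d + 1)) ^ (L + 1)

/-- BALL: balls. -/
def Stmt_BALL : Prop :=
  ∀ {V : Type u} [Fintype V] (G : SimpleGraph V) (d : ℕ), (∀ v, (nb G v).card ≤ d) →
    (∀ k x, (lball G k x).card ≤ (d + 1) ^ k) ∧
    (∀ k x z, z ∈ lball G k x → x ∈ lball G k z) ∧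
    (∀ k x v z, v ∈ lball G k x → (z = v ∨ G.Adj v z) → z ∈ lball G (k + 1) x) ∧
    (∀ L (w : ℕ → V), LWalk G L w → ∀ i ≤ L, w i ∈ lball G L (w 0))

/-- LPKX: the package of `(x, L)`. Index: `P, Q`, the pair in `Codes G x L`, two thresholds in
`Fin (d + 1)` (`hit G θ` is `hit G (min ⌊θ⌋₊ d)` for `0 ≤ θ`). Event: the inequality between
`c1 L d` and `log d` times the sizes, `P.card = Q.card`, `P.Nonempty` and `¬ GoodF`. Scope: the
scope of EVF and `blk x`. From EVF, CNT, BALL. -/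
def Stmt_LPKX : Prop :=
  ∀ (M : ℕ) (σ : ℝ), 0 < M → 0 < σ → σ ≤ 1 → ∃ d0 : ℕ, 3 ≤ d0 ∧
    ∀ {V : Type u} [Fintype V] (G : SimpleGraph V) (d L : ℕ) (c1 : ℝ) (blk : V → V)
      (pos : V → Fin M) (x : V), d0 ≤ d → 1 ≤ L → 0 < c1 → (∀ v, (nb G v).card ≤ d) →
      Blocks M blk pos →
      PackI (σ ^ 2 / (200 * (M : ℝ) ^ 5) / (16 * (d + 1))) ((lball G (L + 3) x).image blk)
        (20 * 4 ^ M * (d + 2) ^ 2 * (4 * (d + 1)) ^ (L + 1) *
          Real.exp (-(3 / 4 * (σ ^ 2 / (200 * (M : ℝ) ^ 5)) * (c1 * L * d / Real.log d))))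
        (PropX G d M σ c1 blk pos x L)

/-- LPKV: the package of `v` (degrees by LIN with `A = nb G v`, sparsity by EVS). Index
`Finset (Fin M) × Bool`, scope `blk v` and `(nb G v).image blk`. From LIN, EVS, BALL. -/
def Stmt_LPKV : Prop :=
  ∀ (M : ℕ) (σ δ : ℝ), 0 < M → 0 < σ → σ ≤ 1 → 0 < δ → δ ≤ 1 → ∃ d0 : ℕ, 1 ≤ d0 ∧
    ∀ {V : Type u} [Fintype V] (G : SimpleGraph V) (d : ℕ) (blk : V → V) (pos : V → Fin M)
      (v : V), d0 ≤ d → (∀ v, (nb G v).card ≤ d) → Blocks M blk pos →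
      PackI (σ ^ 2 / (200 * (M : ℝ) ^ 5) / (16 * (d + 1))) ((lball G 4 v).image blk)
        (20 * 4 ^ M * Real.exp (-(δ ^ 2 / (32 * M) * d))) (PropV G d M δ blk pos v)

/-- LNUM: the numbers. -/
def Stmt_LNUM : Prop :=
  ∀ (M : ℕ) (s c1 e1 : ℝ), 0 < M → 0 < s → 0 < c1 → 0 < e1 → ∃ d0 : ℕ, 3 ≤ d0 ∧
    ∀ d : ℕ, d0 ≤ d →
      ((M : ℝ) * (d + 1) ^ 4 * (20 * 4 ^ M * Real.exp (-(e1 * d))) ≤ s / (16 * (d + 1)) / 4) ∧
      ∀ L : ℕ, 1 ≤ L → (M : ℝ) * (d + 1) ^ (L + 3) * (20 * 4 ^ M * (d + 2) ^ 2 *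
        (4 * (d + 1)) ^ (L + 1) * Real.exp (-(3 / 4 * s * (c1 * L * d / Real.log d)))) ≤
          s / (16 * (d + 1)) / 4 / 2 ^ L

end Pool.Agent.Work.MP_db9399_px
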